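import Mathlib

set_option autoImplicit false

/-! Definitions for the lower half of MP_f1c1a6_nt (5x+1 trees). -/

namespace Pool.Agent.Lib_helper56.Low

open Finset

/-! ### Entropy of functions on finite weighted sets -/

section Ent

variable {ι α : Type} [DecidableEq α]

/-- mass of the fibre `f = a` -/
noncomputable def mass (S : Finset ι) (P : ι → ℝ) (f : ι → α) (a : α) : ℝ :=
  ∑ i ∈ S.filter (fun i => f i = a), P i

/-- Shannon entropy (natural logarithm) of `f` on the weighted set `(S,P)` -/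
noncomputable def ent (S : Finset ι) (P : ι → ℝ) (f : ι → α) : ℝ :=
  ∑ a ∈ S.image f, Real.negMulLog (mass S P f a)

end Ent

/-- weighted set `(S,P)` is a probability space -/
structure IsProb {ι : Type} (S : Finset ι) (P : ι → ℝ) : Prop where
  nonneg : ∀ i ∈ S, 0 ≤ P i
  sum_eq : ∑ i ∈ S, P i = 1

/-- the conditional entropy `H(X mod 5^(j+1) | D)` -/
noncomputable def cc {ι : Type} (S : Finset ι) (P : ι → ℝ) (X : ι → ℤ) (D : ι → ℕ) (j : ℕ) : ℝ :=
  ent S P (fun i => (X i % 5 ^ (j + 1), D i)) - ent S P D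

/-- the window `[j, j+L)` of `T` is (half-)uniform given the class of `x` modulo `5^j` -/
def NU {ι : Type} (S : Finset ι) (P : ι → ℝ) (T : ι → ℤ) (j L : ℕ) (x : ℤ) : Prop :=
  ∀ u : ℤ, u % 5 ^ j = x % 5 ^ j →
    mass S P (fun i => T i % 5 ^ j) (x % 5 ^ j) ≤
      2 * 5 ^ L * mass S P (fun i => T i % 5 ^ (j + L)) (u % 5 ^ (j + L))

/-- same with an additional conditioning variable `D` -/
def NU2 {ι : Type} (S : Finset ι) (P : ι → ℝ) (X : ι → ℤ) (D : ι → ℕ) (j L : ℕ)
    (x : ℤ) (d : ℕ) : Prop :=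
  ∀ u : ℤ, u % 5 ^ j = x % 5 ^ j →
    mass S P (fun i => (X i % 5 ^ j, D i)) (x % 5 ^ j, d) ≤
      2 * 5 ^ L * mass S P (fun i => (X i % 5 ^ (j + L), D i)) (u % 5 ^ (j + L), d)

open Classical in
/-- probability of the uniform windows -/
noncomputable def NUp {ι : Type} (S : Finset ι) (P : ι → ℝ) (T : ι → ℤ) (j L : ℕ) : ℝ :=
  ∑ i ∈ S.filter (fun i => NU S P T j L (T i)), P i

open Classical in
/-- probability of the uniform windows, conditional version -/
noncomputable def NUp2 {ι : Type} (S : Finset ι) (P : ι → ℝ) (X : ι → ℤ) (D : ι → ℕ)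
    (j L : ℕ) : ℝ :=
  ∑ i ∈ S.filter (fun i => NU2 S P X D j L (X i) (D i)), P i

/-! ### Words and the weights `v` -/

/-- one backward step with letter `d`: `d-1` doublings and then one odd step -/
def st (d : ℕ) (x : ℤ) : ℤ := (2 ^ d * x - 1) / 5

/-- end point of the word `w` started at `x` -/
def A : List ℕ → ℤ → ℤ
  | [], x => x
  | d :: w, x => A w (st d x)

/-- the word `w` can be applied to `x` -/
def adm : List ℕ → ℤ → Prop
  | [], _ => True
  | d :: w, x => (5 : ℤ) ∣ 2 ^ d * x - 1 ∧ adm w (st d x)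

instance decAdm : (w : List ℕ) → (x : ℤ) → Decidable (adm w x)
  | [], _ => isTrue trivial
  | d :: w, x => by
      unfold adm
      exact @instDecidableAnd _ _ _ (decAdm w (st d x))

/-- words of length `n` over the alphabet `{1,…,K}` -/
def words (K : ℕ) : ℕ → Finset (List ℕ)
  | 0 => {[]}
  | n + 1 => (Icc 1 K ×ˢ words K n).image (fun p => p.1 :: p.2)

/-- `v K n x = ∑ (5/6)^(sum w)` over the admissible words of length `n` -/
noncomputable def v (K : ℕ) : ℕ → ℤ → ℝ
  | 0, _ => 1
  | n + 1, x => ∑ d ∈ Icc 1 K, if (5 : ℤ) ∣ 2 ^ d * x - 1 then (5 / 6 : ℝ) ^ d * v K n (st d x) else 0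

/-- normalised weights -/
noncomputable def hh (K n : ℕ) (x : ℤ) : ℝ := v K (n + 1) x / v K 1 x

/-- natural kernel on words of length `n` -/
noncomputable def ker (K n : ℕ) (x : ℤ) (w : List ℕ) : ℝ :=
  if adm w x then (5 / 6 : ℝ) ^ w.sum * v K 1 (A w x) / v K (n + 1) x else 0

/-- path probabilities of the block chain (block length `l`, `t` blocks) on words of length `l*t` -/
noncomputable def q (K l : ℕ) : ℕ → ℤ → List ℕ → ℝ
  | 0, _, _ => 1
  | t + 1, x, w => ker K l x (w.take l) * q K l t (A (w.take l) x) (w.drop l)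

/-- expectation over `t` blocks -/
noncomputable def EE (K l t : ℕ) (x : ℤ) (F : ℤ → ℝ) : ℝ :=
  ∑ w ∈ words K (l * t), q K l t x w * F (A w x)

/-- `c_j(s)` for the chain started at `x` -/
noncomputable def cs (K l : ℕ) (x : ℤ) (j s : ℕ) : ℝ :=
  cc (words K (l * s)) (q K l s x) (fun w => A w x) (fun w => w.sum) j

/-- probability that the window `[j,j+L)` of the state at block time `s` is uniform -/
noncomputable def nu (K l : ℕ) (x : ℤ) (s j L : ℕ) : ℝ :=
  NUp2 (words K (l * s)) (q K l s x) (fun w => A w x) (fun w => w.sum) j L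

/-- expected sum of `log hh` along `M` blocks -/
noncomputable def SS (K l : ℕ) : ℕ → ℤ → ℝ
  | 0, _ => 0
  | M + 1, x => Real.log (hh K l x) + ∑ w ∈ words K l, ker K l x w * SS K l M (A w x)

/-- `-log` of the minimum of `hh K n` over the units -/
noncomputable def aa (K n : ℕ) : ℝ :=
  - Real.log (⨅ x : {x : ℤ // ¬ (5 : ℤ) ∣ x}, hh K n x.1)

/-- average of `-log hh` over the class of `c` mod 5 -/
noncomputable def DD (K n : ℕ) (c : ℤ) : ℝ :=
  (∑ y ∈ range (5 ^ n), - Real.log (hh K n (c + 5 * (y : ℤ)))) / 5 ^ n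

end Pool.Agent.Lib_helper56.Low
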